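import Pool.Agent.BEL.StmtsQ

/-!
# Squad BEL, row XID: the cross identity
-/

namespace Pool.Agent.BEL.H91

open Set Filter Topology MeasureTheory
open scoped InnerProductSpace ENNReal NNReal

noncomputable section

/-! ## Hilbert space -/

section hilb

variable {H : Type} [NormedAddCommGroup H] [InnerProductSpace ℝ H] [CompleteSpace H]

/-- the projection on the first `n` coordinates -/
def pn (b : HilbertBasis ℕ ℝ H) (n : ℕ) (x : H) : H := ∑ k ∈ Finset.range n, ⟪b k, x⟫_ℝ • b k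

theorem pn_tendsto (b : HilbertBasis ℕ ℝ H) (x : H) :
    Tendsto (fun n => pn b n x) atTop (𝓝 x) := by
  have h := (b.hasSum_repr x).tendsto_sum_nat
  unfold pn
  simpa only [HilbertBasis.repr_apply_apply] using h

theorem inner_pn (b : HilbertBasis ℕ ℝ H) (n : ℕ) (x y : H) :
    ⟪pn b n x, y⟫_ℝ = ∑ k ∈ Finset.range n, ⟪b k, x⟫_ℝ * ⟪b k, y⟫_ℝ := by
  unfold pn
  rw [sum_inner]
  refine Finset.sum_congr rfl fun k _ => ?_
  rw [real_inner_smul_left]

theorem pn_norm (b : HilbertBasis ℕ ℝ H) (n : ℕ) (x : H) : ‖pn b n x‖ ≤ ‖x‖ := by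
  have h1 : ⟪pn b n x, pn b n x⟫_ℝ = ⟪pn b n x, x⟫_ℝ := by
    rw [inner_pn b n x x]
    have h2 := b.orthonormal.inner_sum (fun k => ⟪b k, x⟫_ℝ) (fun k => ⟪b k, x⟫_ℝ)
      (Finset.range n)
    unfold pn
    rw [h2]
    refine Finset.sum_congr rfl fun k _ => ?_
    simp
  rw [real_inner_self_eq_norm_sq] at h1
  have h2 : ⟪pn b n x, x⟫_ℝ ≤ ‖pn b n x‖ * ‖x‖ := real_inner_le_norm _ _
  rw [← h1, sq] at h2
  rcases (norm_nonneg (pn b n x)).eq_or_lt with h0 | h0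
  · rw [← h0]
    exact norm_nonneg _
  · exact le_of_mul_le_mul_left h2 h0

theorem inner_pn_tendsto (b : HilbertBasis ℕ ℝ H) (x y : H) :
    Tendsto (fun n => ∑ k ∈ Finset.range n, ⟪b k, x⟫_ℝ * ⟪b k, y⟫_ℝ) atTop (𝓝 ⟪x, y⟫_ℝ) := by
  have h : Tendsto (fun n => ⟪pn b n x, y⟫_ℝ) atTop (𝓝 ⟪x, y⟫_ℝ) :=
    Filter.Tendsto.inner (𝕜 := ℝ) (pn_tendsto b x) (tendsto_const_nhds (x := y))
  simpa only [inner_pn] using h

theorem inner_pn_bound (b : HilbertBasis ℕ ℝ H) (n : ℕ) (x y : H) :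
    |∑ k ∈ Finset.range n, ⟪b k, x⟫_ℝ * ⟪b k, y⟫_ℝ| ≤ ‖x‖ * ‖y‖ := by
  rw [← inner_pn]
  exact (abs_real_inner_le_norm _ _).trans
    (mul_le_mul_of_nonneg_right (pn_norm b n x) (norm_nonneg _))

theorem isR_basis {b : HilbertBasis ℕ ℝ H} {om : ℕ → ℝ} {R : H →L[ℝ] H} (hR : IsR b om R)
    (k : ℕ) : R (b k) = (om k)⁻¹ • b k := by
  apply b.repr.injective
  ext j
  rw [HilbertBasis.repr_apply_apply, HilbertBasis.repr_apply_apply, hR, real_inner_smul_right]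
  by_cases hjk : j = k
  · subst hjk
    rw [div_eq_mul_inv, mul_comm]
  · have h0 : ⟪b j, b k⟫_ℝ = 0 := b.orthonormal.2 hjk
    rw [h0]
    simp

end hilb

/-! ## The functional -/

section fct

variable {X : Type} [MeasurableSpace X]

theorem holder (μ : Measure X) [IsFiniteMeasure μ] (a al : ℝ) (ha : 0 < a) (hal : 0 < al)
    (R : Lp ℝ 2 μ →L[ℝ] Lp ℝ 2 μ)
    (hemb : ∃ p > al + 2, ∃ C > 0, ∀ z, MemLp (R z) (ENNReal.ofReal p) μ ∧
      ∫ x, |R z x| ^ p ∂μ ≤ (C * ‖z‖) ^ p) :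
    ∃ C : ℝ, 0 ≤ C ∧ ∀ f : Lp ℝ 2 μ, ∫⁻ x, ENNReal.ofReal (|f x| ^ (al + 2)) ∂μ < ⊤ →
      ∀ z : Lp ℝ 2 μ, Integrable (fun x => gf a al (f x) * R z x) μ ∧
      |∫ x, gf a al (f x) * R z x ∂μ| ≤
        C * (∫⁻ x, ENNReal.ofReal (|f x| ^ (al + 2)) ∂μ).toReal ^ ((al + 1) / (al + 2)) *
          ‖z‖ := by
  obtain ⟨p, hp, C0, hC00, hC0⟩ := hemb
  have hal2 : (0:ℝ) < al + 2 := by linarith
  have hal1 : (0:ℝ) < al + 1 := by linarith
  have hp0 : 0 < p := by linarith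
  have hqp : ENNReal.ofReal (al + 2) ≤ ENNReal.ofReal p := ENNReal.ofReal_le_ofReal hp.le
  have hq0 : ENNReal.ofReal (al + 2) ≠ 0 := by
    rw [Ne, ENNReal.ofReal_eq_zero, not_le]
    exact hal2
  have hp00 : ENNReal.ofReal p ≠ 0 := by
    rw [Ne, ENNReal.ofReal_eq_zero, not_le]
    exact hp0
  have hconj : ((al + 2) / (al + 1)).HolderConjugate (al + 2) := by
    rw [Real.holderConjugate_iff]
    constructor
    · rw [lt_div_iff₀ hal1]
      linarith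
    · rw [inv_div]
      field_simp
      ring
  have hM : μ Set.univ ^ (1 / (ENNReal.ofReal (al + 2)).toReal - 1 / (ENNReal.ofReal p).toReal)
      ≠ ⊤ := by
    apply ENNReal.rpow_ne_top_of_nonneg
    · rw [ENNReal.toReal_ofReal hal2.le, ENNReal.toReal_ofReal hp0.le, sub_nonneg]
      exact one_div_le_one_div_of_le hal2 hp.le
    · exact measure_ne_top μ _
  set M : ℝ := (μ Set.univ ^ (1 / (ENNReal.ofReal (al + 2)).toReal -
    1 / (ENNReal.ofReal p).toReal)).toReal with hMdef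
  have hM0 : 0 ≤ M := ENNReal.toReal_nonneg
  have hRm : ∀ z : Lp ℝ 2 μ, MemLp (fun x => R z x) (ENNReal.ofReal (al + 2)) μ := fun z =>
    (hC0 z).1.mono_exponent hqp
  have hRb : ∀ z : Lp ℝ 2 μ, (∫ x, ‖R z x‖ ^ (al + 2) ∂μ) ^ (1 / (al + 2)) ≤ C0 * M * ‖z‖ := by
    intro z
    have h1 := (hRm z).eLpNorm_eq_integral_rpow_norm hq0 ENNReal.ofReal_ne_top
    have h2 := (hC0 z).1.eLpNorm_eq_integral_rpow_norm hp00 ENNReal.ofReal_ne_top
    rw [ENNReal.toReal_ofReal hal2.le] at h1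
    rw [ENNReal.toReal_ofReal hp0.le] at h2
    have h3 := eLpNorm_le_eLpNorm_mul_rpow_measure_univ hqp (μ := μ)
      (Lp.aestronglyMeasurable (R z))
    have h4 : (∫ x, ‖R z x‖ ^ p ∂μ) ^ p⁻¹ ≤ C0 * ‖z‖ := by
      have h5 : (∫ x, ‖R z x‖ ^ p ∂μ) ≤ (C0 * ‖z‖) ^ p := (hC0 z).2
      have h6 : (∫ x, ‖R z x‖ ^ p ∂μ) ^ p⁻¹ ≤ ((C0 * ‖z‖) ^ p) ^ p⁻¹ := by
        apply Real.rpow_le_rpow _ h5 (by positivity)
        exact integral_nonneg fun x => Real.rpow_nonneg (norm_nonneg _) _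
      rwa [← Real.rpow_mul (by positivity), mul_inv_cancel₀ hp0.ne', Real.rpow_one] at h6
    rw [h1, h2] at h3
    have h7 : ENNReal.ofReal ((∫ x, ‖R z x‖ ^ p ∂μ) ^ p⁻¹) ≤ ENNReal.ofReal (C0 * ‖z‖) :=
      ENNReal.ofReal_le_ofReal h4
    have h8 := h3.trans (mul_le_mul_left h7 _)
    rw [← ENNReal.ofReal_toReal hM, ← hMdef, ← ENNReal.ofReal_mul (by positivity),
      ENNReal.ofReal_le_ofReal_iff (by positivity)] at h8
    rw [one_div]
    linarith
  refine ⟨a * (C0 * M), by positivity, ?_⟩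
  intro f hf z
  have hfm : AEStronglyMeasurable (fun x => f x) μ := Lp.aestronglyMeasurable f
  set D : ℝ := (∫⁻ x, ENNReal.ofReal (|f x| ^ (al + 2)) ∂μ).toReal with hD
  have hDint : ∫ x, |f x| ^ (al + 2) ∂μ = D := by
    rw [hD, integral_eq_lintegral_of_nonneg_ae]
    · exact Filter.Eventually.of_forall fun x => Real.rpow_nonneg (abs_nonneg _) _
    · exact (hfm.norm.aemeasurable.pow_const (al + 2)).aestronglyMeasurable
  have hgm : AEStronglyMeasurable (fun x => gf a al (f x)) μ := by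
    unfold gf
    have h1 : AEMeasurable (fun x => f x) μ := hfm.aemeasurable
    exact ((((h1.norm).pow_const al).const_mul a).mul h1).aestronglyMeasurable
  have hgn : ∀ s : ℝ, ‖gf a al s‖ ^ ((al + 2) / (al + 1)) =
      a ^ ((al + 2) / (al + 1)) * |s| ^ (al + 2) := by
    intro s
    have h1 : ‖gf a al s‖ = a * |s| ^ (al + 1) := by
      unfold gf
      rw [Real.norm_eq_abs, abs_mul, abs_mul, abs_of_pos ha,
        abs_of_nonneg (Real.rpow_nonneg (abs_nonneg s) al), mul_assoc,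
        Real.rpow_add_one' (abs_nonneg s) hal1.ne']
    rw [h1, Real.mul_rpow ha.le (Real.rpow_nonneg (abs_nonneg s) _),
      ← Real.rpow_mul (abs_nonneg s)]
    congr 2
    field_simp
  have hgmem : MemLp (fun x => gf a al (f x)) (ENNReal.ofReal ((al + 2) / (al + 1))) μ := by
    have hr0 : (0:ℝ) < (al + 2) / (al + 1) := by positivity
    refine ⟨hgm, ?_⟩
    rw [eLpNorm_lt_top_iff_lintegral_rpow_enorm_lt_top]
    · rw [ENNReal.toReal_ofReal hr0.le]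
      have he : ∀ x, ‖gf a al (f x)‖ₑ ^ ((al + 2) / (al + 1)) =
          ENNReal.ofReal (a ^ ((al + 2) / (al + 1))) * ENNReal.ofReal (|f x| ^ (al + 2)) := by
        intro x
        rw [← ENNReal.ofReal_mul (Real.rpow_nonneg ha.le _), ← hgn (f x), ← ofReal_norm,
          ENNReal.ofReal_rpow_of_nonneg (norm_nonneg _) hr0.le]
      simp_rw [he]
      rw [lintegral_const_mul' _ _ ENNReal.ofReal_ne_top]
      exact ENNReal.mul_lt_top ENNReal.ofReal_lt_top hf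
    · rw [Ne, ENNReal.ofReal_eq_zero, not_le]
      exact hr0
    · exact ENNReal.ofReal_ne_top
  have hhc : ENNReal.HolderConjugate (ENNReal.ofReal ((al + 2) / (al + 1)))
      (ENNReal.ofReal (al + 2)) := hconj.ennrealOfReal
  refine ⟨hgmem.integrable_mul (hRm z), ?_⟩
  have hH := integral_mul_norm_le_Lp_mul_Lq hconj hgmem (hRm z)
  have h1 : |∫ x, gf a al (f x) * R z x ∂μ| ≤ ∫ x, ‖gf a al (f x)‖ * ‖R z x‖ ∂μ := by
    rw [← Real.norm_eq_abs]
    refine (norm_integral_le_integral_norm _).trans (le_of_eq ?_)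
    refine integral_congr_ae (Filter.Eventually.of_forall fun x => ?_)
    exact norm_mul _ _
  refine h1.trans (hH.trans ?_)
  have hD0 : 0 ≤ D := ENNReal.toReal_nonneg
  have hF1 : (∫ x, ‖gf a al (f x)‖ ^ ((al + 2) / (al + 1)) ∂μ) ^ (1 / ((al + 2) / (al + 1))) =
      a * D ^ ((al + 1) / (al + 2)) := by
    simp_rw [hgn]
    rw [integral_const_mul, hDint, one_div_div,
      Real.mul_rpow (Real.rpow_nonneg ha.le _) hD0, ← Real.rpow_mul ha.le]
    have he : (al + 2) / (al + 1) * ((al + 1) / (al + 2)) = 1 := by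
      field_simp
    rw [he, Real.rpow_one]
  rw [hF1]
  have hDr : 0 ≤ D ^ ((al + 1) / (al + 2)) := Real.rpow_nonneg hD0 _
  calc a * D ^ ((al + 1) / (al + 2)) * (∫ x, ‖R z x‖ ^ (al + 2) ∂μ) ^ (1 / (al + 2)) ≤
      a * D ^ ((al + 1) / (al + 2)) * (C0 * M * ‖z‖) :=
        mul_le_mul_of_nonneg_left (hRb z) (mul_nonneg ha.le hDr)
    _ = a * (C0 * M) * D ^ ((al + 1) / (al + 2)) * ‖z‖ := by ring

/-- the sums `∑ G_k Q_k` -/
theorem point (μ : Measure X) [IsFiniteMeasure μ] (a al : ℝ) (ha : 0 < a) (hal : 0 < al)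
    (b : HilbertBasis ℕ ℝ (Lp ℝ 2 μ)) (om : ℕ → ℝ) (hom : ∀ k, 0 < om k)
    (R : Lp ℝ 2 μ →L[ℝ] Lp ℝ 2 μ) (hR : IsR b om R)
    (hemb : ∃ p > al + 2, ∃ C > 0, ∀ z, MemLp (R z) (ENNReal.ofReal p) μ ∧
      ∫ x, |R z x| ^ p ∂μ ≤ (C * ‖z‖) ^ p) :
    ∃ C : ℝ, 0 ≤ C ∧ ∀ f : Lp ℝ 2 μ, DisE μ (al + 2) (fun _ => f) 0 < ⊤ →
      ∀ (z v : Lp ℝ 2 μ), v = R z →
      |∫ x, gf a al (f x) * v x ∂μ| ≤ C * (1 + Dis μ (al + 2) (fun _ => f) 0) * ‖z‖ ∧
      (∀ n, |∑ k ∈ Finset.range n, (∫ x, gf a al (f x) * b k x ∂μ) * ⟪b k, v⟫_ℝ| ≤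
        C * (1 + Dis μ (al + 2) (fun _ => f) 0) * ‖z‖) ∧
      Tendsto (fun n => ∑ k ∈ Finset.range n, (∫ x, gf a al (f x) * b k x ∂μ) * ⟪b k, v⟫_ℝ)
        atTop (𝓝 (∫ x, gf a al (f x) * v x ∂μ)) := by
  obtain ⟨C, hC0, hC⟩ := holder μ a al ha hal R hemb
  refine ⟨C, hC0, ?_⟩
  intro f hf z v hv
  subst hv
  have hf' : ∫⁻ x, ENNReal.ofReal (|f x| ^ (al + 2)) ∂μ < ⊤ := hf
  set D : ℝ := Dis μ (al + 2) (fun _ => f) 0 with hD
  have hDe : D = (∫⁻ x, ENNReal.ofReal (|f x| ^ (al + 2)) ∂μ).toReal := rfl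
  have hD0 : 0 ≤ D := ENNReal.toReal_nonneg
  have hpow : D ^ ((al + 1) / (al + 2)) ≤ 1 + D := by
    have he0 : 0 ≤ (al + 1) / (al + 2) := by positivity
    have he1 : (al + 1) / (al + 2) ≤ 1 := by
      rw [div_le_one (by linarith)]
      linarith
    rcases le_total D 1 with h | h
    · exact (Real.rpow_le_one hD0 h he0).trans (by linarith)
    · calc D ^ ((al + 1) / (al + 2)) ≤ D ^ (1 : ℝ) := Real.rpow_le_rpow_of_exponent_le h he1
        _ = D := Real.rpow_one D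
        _ ≤ 1 + D := by linarith
  have hb : ∀ w : Lp ℝ 2 μ, |∫ x, gf a al (f x) * R w x ∂μ| ≤ C * (1 + D) * ‖w‖ := by
    intro w
    refine ((hC f hf' w).2).trans ?_
    rw [← hDe]
    exact mul_le_mul_of_nonneg_right (mul_le_mul_of_nonneg_left hpow hC0) (norm_nonneg _)
  -- the linear functional
  let ψ₀ : Lp ℝ 2 μ →ₗ[ℝ] ℝ :=
    { toFun := fun w => ∫ x, gf a al (f x) * R w x ∂μ
      map_add' := by
        intro w w'
        rw [← integral_add (hC f hf' w).1 (hC f hf' w').1]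
        apply integral_congr_ae
        rw [map_add]
        filter_upwards [Lp.coeFn_add (R w) (R w')] with x hx
        rw [hx, Pi.add_apply, mul_add]
      map_smul' := by
        intro c w
        rw [RingHom.id_apply, smul_eq_mul, ← integral_const_mul]
        apply integral_congr_ae
        rw [map_smul]
        filter_upwards [Lp.coeFn_smul c (R w)] with x hx
        rw [hx, Pi.smul_apply, smul_eq_mul]
        ring }
  have hψ₀ : ∀ w, ψ₀ w = ∫ x, gf a al (f x) * R w x ∂μ := fun w => rfl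
  let ψ : Lp ℝ 2 μ →L[ℝ] ℝ := ψ₀.mkContinuous (C * (1 + D)) (fun w => by
    rw [Real.norm_eq_abs, hψ₀]
    exact hb w)
  have hψ : ∀ w, ψ w = ∫ x, gf a al (f x) * R w x ∂μ := fun w => rfl
  have hψb : ∀ k, ψ (b k) = (om k)⁻¹ * ∫ x, gf a al (f x) * b k x ∂μ := by
    intro k
    rw [hψ, ← integral_const_mul]
    apply integral_congr_ae
    rw [isR_basis hR k]
    filter_upwards [Lp.coeFn_smul (om k)⁻¹ (b k)] with x hx
    rw [hx, Pi.smul_apply, smul_eq_mul]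
    ring
  have hsum : ∀ n, ∑ k ∈ Finset.range n, (∫ x, gf a al (f x) * b k x ∂μ) * ⟪b k, R z⟫_ℝ =
      ψ (pn b n z) := by
    intro n
    unfold pn
    rw [map_sum]
    refine Finset.sum_congr rfl fun k _ => ?_
    rw [map_smul, hψb, hR, smul_eq_mul]
    field_simp
  refine ⟨hb z, ?_, ?_⟩
  · intro n
    rw [hsum, hψ]
    refine (hb _).trans ?_
    apply mul_le_mul_of_nonneg_left (pn_norm b n z)
    positivity
  · simp_rw [hsum]
    rw [← hψ]
    exact (ψ.continuous.tendsto z).comp (pn_tendsto b z)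

end fct

/-- XID -/
theorem xid (hGrq : GrqStmt) (hCoo : CooStmt) (hGlp : GlpStmt) (hNem : NemStmt)
    (hUpr : UprStmt) (hUen : UenStmt) : XidStmt := by
  intro X _ μ _ a al b om R W Js hc hi z1 z2 hs l M V Z hl hfl hx t ht
  have ha := hc.a_pos
  have hal := hc.al_pos
  have hom := hi.pos
  obtain ⟨hW0, -, -, -, -, hWc, -, -⟩ := hGrq (Lp ℝ 2 μ) ℕ b om W hc.grp
  obtain ⟨-, hlip, -, hg0, -⟩ := hGlp a al ha hal
  obtain ⟨-, hnl, -⟩ := hNem X μ (gl a al l) _ (hlip l hl.le) (hg0 l)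
  obtain ⟨hU1, hU2⟩ := hUen X μ a al b om ha hal hi z1 z2 hs
  obtain ⟨C, hC0, hC⟩ := point μ a al ha hal b om hom R hc.isr hc.emb
  -- continuity
  have hZc : Continuous Z := continuous_iff_continuousAt.2 fun r => (hfl.eq r).continuousAt
  have hUc : Continuous fun s => W s (Z s) := hWc Z hZc
  have hu1 : Continuous fun s => P1 (W s (Z s)) := P1.continuous.comp hUc
  have hu2 : Continuous fun s => P2 (W s (Z s)) := P2.continuous.comp hUc
  have hFc : Continuous fun s => nem μ (gl a al l) (P2 (W s (Z s))) := hnl.continuous.comp hu2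
  have hIcc : ∀ r, 0 ≤ r → uIcc 0 r ⊆ Ici (0:ℝ) := by
    intro r hr s hs
    rw [uIcc_of_le hr] at hs
    exact hs.1
  have hpc : ∀ k, ContinuousOn (fun s => ⟪b k, z1 s⟫_ℝ) (Ici 0) := fun k =>
    continuousOn_const.inner hs.c1
  have hqc : ∀ k, ContinuousOn (fun s => ⟪b k, z2 s⟫_ℝ) (Ici 0) := fun k =>
    continuousOn_const.inner hs.c2
  have hPc : ∀ k, Continuous fun s => ⟪b k, P1 (W s (Z s))⟫_ℝ := fun k =>
    continuous_const.inner hu1
  have hQc : ∀ k, Continuous fun s => ⟪b k, P2 (W s (Z s))⟫_ℝ := fun k =>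
    continuous_const.inner hu2
  have hFkc : ∀ k, Continuous fun s => ⟪b k, nem μ (gl a al l) (P2 (W s (Z s)))⟫_ℝ := fun k =>
    continuous_const.inner hFc
  have hGi : ∀ k r, 0 ≤ r → IntervalIntegrable
      (fun s => (∫ x, gf a al (z2 s x) * b k x ∂μ) * ⟪b k, P2 (W s (Z s))⟫_ℝ) volume 0 r :=
    fun k r hr => (hs.gint k r hr).mul_continuousOn (hQc k).continuousOn
  have hqF : ∀ k r, 0 ≤ r → IntervalIntegrable
      (fun s => ⟪b k, z2 s⟫_ℝ * ⟪b k, nem μ (gl a al l) (P2 (W s (Z s)))⟫_ℝ) volume 0 r :=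
    fun k r hr => (((hqc k).mono (hIcc r hr)).mul (hFkc k).continuousOn).intervalIntegrable
  -- one coordinate
  have hcoord : ∀ k, ⟪b k, z1 t⟫_ℝ * ⟪b k, P1 (W t (Z t))⟫_ℝ +
      ⟪b k, z2 t⟫_ℝ * ⟪b k, P2 (W t (Z t))⟫_ℝ -
      (⟪b k, z1 0⟫_ℝ * ⟪b k, P1 (W 0 (Z 0))⟫_ℝ + ⟪b k, z2 0⟫_ℝ * ⟪b k, P2 (W 0 (Z 0))⟫_ℝ) =
      -((∫ s in (0:ℝ)..t, (∫ x, gf a al (z2 s x) * b k x ∂μ) * ⟪b k, P2 (W s (Z s))⟫_ℝ) +
        ∫ s in (0:ℝ)..t,
          ⟪b k, z2 s⟫_ℝ * ⟪b k, nem μ (gl a al l) (P2 (W s (Z s)))⟫_ℝ) := by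
    intro k
    have h1 := hUpr (fun s => ⟪b k, z1 s⟫_ℝ) (fun s => ⟪b k, P1 (W s (Z s))⟫_ℝ)
      (fun s => om k * ⟪b k, z2 s⟫_ℝ) (fun s => om k * ⟪b k, P2 (W s (Z s))⟫_ℝ) 0 t ht
      ((continuousOn_const.mul ((hqc k).mono (hIcc t ht))).intervalIntegrable)
      ((continuous_const.mul (hQc k)).intervalIntegrable 0 t)
      (fun r hr _ => by
        rw [intervalIntegral.integral_const_mul]
        exact hs.m1 k r hr)
      (fun r hr _ => by
        rw [intervalIntegral.integral_eq_sub_of_hasDerivAt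
          (fun s _ => (hCoo (Lp ℝ 2 μ) ℕ b om W _ V Z k s hc.grp hfl).1)
          ((continuous_const.mul (hQc k)).intervalIntegrable 0 r)]
        ring)
    have h2 := hUpr (fun s => ⟪b k, z2 s⟫_ℝ) (fun s => ⟪b k, P2 (W s (Z s))⟫_ℝ)
      (fun s => -(om k * ⟪b k, z1 s⟫_ℝ + ∫ x, gf a al (z2 s x) * b k x ∂μ))
      (fun s => -(om k) * ⟪b k, P1 (W s (Z s))⟫_ℝ -
        ⟪b k, nem μ (gl a al l) (P2 (W s (Z s)))⟫_ℝ) 0 t ht
      (((continuousOn_const.mul ((hpc k).mono (hIcc t ht))).intervalIntegrable.add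
        (hs.gint k t ht)).neg)
      (((continuous_const.mul (hPc k)).sub (hFkc k)).intervalIntegrable 0 t)
      (fun r hr _ => by
        rw [intervalIntegral.integral_neg, ← sub_eq_add_neg]
        exact hs.m2 k r hr)
      (fun r hr _ => by
        rw [intervalIntegral.integral_eq_sub_of_hasDerivAt
          (fun s _ => (hCoo (Lp ℝ 2 μ) ℕ b om W _ V Z k s hc.grp hfl).2)
          (((continuous_const.mul (hPc k)).sub (hFkc k)).intervalIntegrable 0 r)]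
        ring)
    have i1 : IntervalIntegrable (fun s => om k * ⟪b k, z2 s⟫_ℝ * ⟪b k, P1 (W s (Z s))⟫_ℝ +
        ⟪b k, z1 s⟫_ℝ * (om k * ⟪b k, P2 (W s (Z s))⟫_ℝ)) volume 0 t := by
      apply ContinuousOn.intervalIntegrable
      exact (((continuousOn_const.mul ((hqc k).mono (hIcc t ht))).mul
        (hPc k).continuousOn).add (((hpc k).mono (hIcc t ht)).mul
        (continuous_const.mul (hQc k)).continuousOn))
    have i2 : IntervalIntegrable (fun s =>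
        -(om k * ⟪b k, z1 s⟫_ℝ + ∫ x, gf a al (z2 s x) * b k x ∂μ) * ⟪b k, P2 (W s (Z s))⟫_ℝ +
        ⟪b k, z2 s⟫_ℝ * (-(om k) * ⟪b k, P1 (W s (Z s))⟫_ℝ -
          ⟪b k, nem μ (gl a al l) (P2 (W s (Z s)))⟫_ℝ)) volume 0 t := by
      apply IntervalIntegrable.add
      · exact (((continuousOn_const.mul ((hpc k).mono (hIcc t ht))).intervalIntegrable.add
          (hs.gint k t ht)).neg).mul_continuousOn (hQc k).continuousOn
      · exact (((hqc k).mono (hIcc t ht)).mul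
          ((continuous_const.mul (hPc k)).sub (hFkc k)).continuousOn).intervalIntegrable
    have h3 : ⟪b k, z1 t⟫_ℝ * ⟪b k, P1 (W t (Z t))⟫_ℝ +
        ⟪b k, z2 t⟫_ℝ * ⟪b k, P2 (W t (Z t))⟫_ℝ -
        (⟪b k, z1 0⟫_ℝ * ⟪b k, P1 (W 0 (Z 0))⟫_ℝ + ⟪b k, z2 0⟫_ℝ * ⟪b k, P2 (W 0 (Z 0))⟫_ℝ) =
        (⟪b k, z1 t⟫_ℝ * ⟪b k, P1 (W t (Z t))⟫_ℝ - ⟪b k, z1 0⟫_ℝ * ⟪b k, P1 (W 0 (Z 0))⟫_ℝ) +
        (⟪b k, z2 t⟫_ℝ * ⟪b k, P2 (W t (Z t))⟫_ℝ -
          ⟪b k, z2 0⟫_ℝ * ⟪b k, P2 (W 0 (Z 0))⟫_ℝ) := by ring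
    rw [h3, h1, h2, ← intervalIntegral.integral_add i1 i2,
      ← intervalIntegral.integral_add (hGi k t ht) (hqF k t ht),
      ← intervalIntegral.integral_neg]
    apply intervalIntegral.integral_congr
    intro s _
    ring
  -- the sums
  have hsum : ∀ n, (∑ k ∈ Finset.range n, ⟪b k, z1 t⟫_ℝ * ⟪b k, P1 (W t (Z t))⟫_ℝ) +
      (∑ k ∈ Finset.range n, ⟪b k, z2 t⟫_ℝ * ⟪b k, P2 (W t (Z t))⟫_ℝ) -
      ((∑ k ∈ Finset.range n, ⟪b k, z1 0⟫_ℝ * ⟪b k, P1 (W 0 (Z 0))⟫_ℝ) +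
        (∑ k ∈ Finset.range n, ⟪b k, z2 0⟫_ℝ * ⟪b k, P2 (W 0 (Z 0))⟫_ℝ)) =
      -((∫ s in (0:ℝ)..t, ∑ k ∈ Finset.range n,
          (∫ x, gf a al (z2 s x) * b k x ∂μ) * ⟪b k, P2 (W s (Z s))⟫_ℝ) +
        ∫ s in (0:ℝ)..t, ∑ k ∈ Finset.range n,
          ⟪b k, z2 s⟫_ℝ * ⟪b k, nem μ (gl a al l) (P2 (W s (Z s)))⟫_ℝ) := by
    intro n
    rw [intervalIntegral.integral_finsetSum (fun k _ => hGi k t ht),
      intervalIntegral.integral_finsetSum (fun k _ => hqF k t ht)]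
    rw [← Finset.sum_add_distrib, ← Finset.sum_add_distrib, ← Finset.sum_sub_distrib,
      ← Finset.sum_add_distrib, ← Finset.sum_neg_distrib]
    exact Finset.sum_congr rfl fun k _ => hcoord k
  -- the left side
  have hL := ((inner_pn_tendsto b (z1 t) (P1 (W t (Z t)))).add
    (inner_pn_tendsto b (z2 t) (P2 (W t (Z t))))).sub
    ((inner_pn_tendsto b (z1 0) (P1 (W 0 (Z 0)))).add
      (inner_pn_tendsto b (z2 0) (P2 (W 0 (Z 0)))))
  -- almost every time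
  have hae : ∀ᵐ s ∂(volume : Measure ℝ), s ∈ uIoc (0:ℝ) t → DisE μ (al + 2) z2 s < ⊤ := by
    rw [ae_restrict_iff' measurableSet_Ici] at hU2
    filter_upwards [hU2] with s hs hst
    rw [uIoc_of_le ht] at hst
    exact hs hst.1.le
  have hDi : IntervalIntegrable (fun s => C * (1 + Dis μ (al + 2) z2 s) * M) volume 0 t := by
    have h1 := (hU1 0 t le_rfl ht).1
    exact (((intervalIntegrable_const (c := (1:ℝ))).add h1).const_mul C).mul_const M
  have hpt : ∀ s, 0 ≤ s → DisE μ (al + 2) z2 s < ⊤ →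
      |∫ x, gf a al (z2 s x) * P2 (W s (Z s)) x ∂μ| ≤ C * (1 + Dis μ (al + 2) z2 s) * M ∧
      (∀ n, |∑ k ∈ Finset.range n, (∫ x, gf a al (z2 s x) * b k x ∂μ) *
        ⟪b k, P2 (W s (Z s))⟫_ℝ| ≤ C * (1 + Dis μ (al + 2) z2 s) * M) ∧
      Tendsto (fun n => ∑ k ∈ Finset.range n, (∫ x, gf a al (z2 s x) * b k x ∂μ) *
        ⟪b k, P2 (W s (Z s))⟫_ℝ) atTop (𝓝 (∫ x, gf a al (z2 s x) * P2 (W s (Z s)) x ∂μ)) := by
    intro s hs0 hsf
    obtain ⟨x, hx1, hx2⟩ := hx s hs0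
    obtain ⟨k1, k2, k3⟩ := hC (z2 s) hsf x _ hx1
    have hD0 : 0 ≤ Dis μ (al + 2) z2 s := ENNReal.toReal_nonneg
    have hmul : C * (1 + Dis μ (al + 2) z2 s) * ‖x‖ ≤ C * (1 + Dis μ (al + 2) z2 s) * M :=
      mul_le_mul_of_nonneg_left hx2 (by positivity)
    exact ⟨k1.trans hmul, fun n => (k2 n).trans hmul, k3⟩
  have hAm : ∀ n, AEStronglyMeasurable (fun s => ∑ k ∈ Finset.range n,
      (∫ x, gf a al (z2 s x) * b k x ∂μ) * ⟪b k, P2 (W s (Z s))⟫_ℝ)
      (volume.restrict (uIoc (0:ℝ) t)) := by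
    intro n
    rw [uIoc_of_le ht]
    apply Finset.aestronglyMeasurable_fun_sum
    intro k _
    exact (hGi k t ht).aestronglyMeasurable
  have hA : Tendsto (fun n => ∫ s in (0:ℝ)..t, ∑ k ∈ Finset.range n,
      (∫ x, gf a al (z2 s x) * b k x ∂μ) * ⟪b k, P2 (W s (Z s))⟫_ℝ) atTop
      (𝓝 (∫ s in (0:ℝ)..t, ∫ x, gf a al (z2 s x) * P2 (W s (Z s)) x ∂μ)) := by
    apply intervalIntegral.tendsto_integral_filter_of_dominated_convergence
      (fun s => C * (1 + Dis μ (al + 2) z2 s) * M)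
    · exact Filter.Eventually.of_forall hAm
    · apply Filter.Eventually.of_forall
      intro n
      filter_upwards [hae] with s hs1 hs2
      have hs3 := hs1 hs2
      rw [uIoc_of_le ht] at hs2
      rw [Real.norm_eq_abs]
      exact (hpt s hs2.1.le hs3).2.1 n
    · exact hDi
    · filter_upwards [hae] with s hs1 hs2
      have hs3 := hs1 hs2
      rw [uIoc_of_le ht] at hs2
      exact (hpt s hs2.1.le hs3).2.2
  have hB : Tendsto (fun n => ∫ s in (0:ℝ)..t, ∑ k ∈ Finset.range n,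
      ⟪b k, z2 s⟫_ℝ * ⟪b k, nem μ (gl a al l) (P2 (W s (Z s)))⟫_ℝ) atTop
      (𝓝 (∫ s in (0:ℝ)..t, ⟪z2 s, nem μ (gl a al l) (P2 (W s (Z s)))⟫_ℝ)) := by
    apply intervalIntegral.tendsto_integral_filter_of_dominated_convergence
      (fun s => ‖z2 s‖ * ‖nem μ (gl a al l) (P2 (W s (Z s)))‖)
    · apply Filter.Eventually.of_forall
      intro n
      rw [uIoc_of_le ht]
      apply Finset.aestronglyMeasurable_fun_sum
      intro k _
      exact (hqF k t ht).aestronglyMeasurable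
    · apply Filter.Eventually.of_forall
      intro n
      apply Filter.Eventually.of_forall
      intro s _
      rw [Real.norm_eq_abs]
      exact inner_pn_bound b n _ _
    · apply ContinuousOn.intervalIntegrable
      exact (hs.c2.mono (hIcc t ht)).norm.mul hFc.norm.continuousOn
    · apply Filter.Eventually.of_forall
      intro s _
      exact inner_pn_tendsto b _ _
  refine ⟨?_, ?_⟩
  · -- integrability
    rw [intervalIntegrable_iff]
    rw [intervalIntegrable_iff] at hDi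
    have hmeas : AEStronglyMeasurable
        (fun s => ∫ x, gf a al (z2 s x) * P2 (W s (Z s)) x ∂μ)
        (volume.restrict (uIoc (0:ℝ) t)) := by
      apply aestronglyMeasurable_of_tendsto_ae atTop hAm
      rw [ae_restrict_iff' measurableSet_uIoc]
      filter_upwards [hae] with s hs1 hs2
      have hs3 := hs1 hs2
      rw [uIoc_of_le ht] at hs2
      exact (hpt s hs2.1.le hs3).2.2
    apply Integrable.mono' hDi hmeas
    rw [ae_restrict_iff' measurableSet_uIoc]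
    filter_upwards [hae] with s hs1 hs2
    have hs3 := hs1 hs2
    rw [uIoc_of_le ht] at hs2
    rw [Real.norm_eq_abs]
    exact (hpt s hs2.1.le hs3).1
  · have hR := (hA.add hB).neg
    have hu := tendsto_nhds_unique hL (hR.congr fun n => (hsum n).symm)
    have hV : W 0 (Z 0) = V := by rw [hW0, hfl.z0]
    rw [hV] at hu
    linarith

end

end Pool.Agent.BEL.H91
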